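import Pool.Agent.Helper86.TC8.Stmts

set_option autoImplicit false

/-!
MP_e0a484_co, module NUM: the numerical inequalities.
-/

namespace Pool.Agent.Helper62.TC8

open Pool.Agent.Helper86.TC8

theorem one_sub_pow_le (a : ℕ) : (1 - 1 / (2 : ℝ) ^ a) ^ (2 ^ a) ≤ 1 / 2 := by
  have h0 : (0 : ℝ) < 2 ^ a := by positivity
  have h1 : (1 : ℝ) ≤ 2 ^ a := one_le_pow₀ (by norm_num)
  have h2 : (0 : ℝ) ≤ 1 - 1 / 2 ^ a := by
    rw [sub_nonneg, div_le_one h0]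
    exact h1
  have h3 : 1 - 1 / (2 : ℝ) ^ a ≤ Real.exp (-(1 / 2 ^ a)) := Real.one_sub_le_exp_neg _
  calc (1 - 1 / (2 : ℝ) ^ a) ^ (2 ^ a) ≤ (Real.exp (-(1 / 2 ^ a))) ^ (2 ^ a) :=
        pow_le_pow_left₀ h2 h3 _
    _ = Real.exp (-1) := by
        rw [← Real.exp_nat_mul]
        congr 1
        push_cast
        field_simp
    _ ≤ 1 / 2 := by
        rw [Real.exp_neg, inv_eq_one_div]
        apply one_div_le_one_div_of_le (by norm_num)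
        have := Real.exp_one_gt_d9
        linarith

theorem key (a m n : ℕ) (h : m * 2 ^ a ≤ n) : (1 - 1 / (2 : ℝ) ^ a) ^ n ≤ (1 / 2) ^ m := by
  have h0 : (0 : ℝ) < 2 ^ a := by positivity
  have h1 : (1 : ℝ) ≤ 2 ^ a := one_le_pow₀ (by norm_num)
  have h2 : (0 : ℝ) ≤ 1 - 1 / 2 ^ a := by
    rw [sub_nonneg, div_le_one h0]
    exact h1
  have h3 : 1 - 1 / (2 : ℝ) ^ a ≤ 1 := by
    have : (0 : ℝ) ≤ 1 / 2 ^ a := by positivity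
    linarith
  calc (1 - 1 / (2 : ℝ) ^ a) ^ n ≤ (1 - 1 / (2 : ℝ) ^ a) ^ (m * 2 ^ a) :=
        pow_le_pow_of_le_one h2 h3 h
    _ = ((1 - 1 / (2 : ℝ) ^ a) ^ (2 ^ a)) ^ m := by rw [mul_comm, pow_mul]
    _ ≤ (1 / 2) ^ m := pow_le_pow_left₀ (pow_nonneg h2 _) (one_sub_pow_le a) _

theorem two_half (a b c : ℕ) (h : a + c ≤ b) : (2 : ℝ) ^ a * (1 / 2) ^ b ≤ (1 / 2) ^ c := by
  calc (2 : ℝ) ^ a * (1 / 2) ^ b ≤ 2 ^ a * (1 / 2) ^ (a + c) := by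
        apply mul_le_mul_of_nonneg_left _ (by positivity)
        exact pow_le_pow_of_le_one (by norm_num) (by norm_num) h
    _ = (1 / 2) ^ c := by
        rw [pow_add, ← mul_assoc, ← mul_pow]
        norm_num

theorem cst : (2 * (6 * ((2 * 139 * 2 ^ 150 : ℕ) + 1) + 2) : ℝ) ≤ 2 ^ 164 := by
  push_cast
  norm_num

theorem four_pow (a b c d : ℕ) : (2 : ℝ) ^ (a + b + c + d) = 2 ^ a * 2 ^ b * 2 ^ c * 2 ^ d := by
  rw [pow_add, pow_add, pow_add]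

theorem rhs_le (D LF e : ℕ) (hb2 : (3 * (LF : ℝ) + 4) ≤ 2 ^ (D + 36)) :
    (1 / 2 : ℝ) ^ (D + e + 39) ≤ 1 / (6 * (2 ^ e * (3 * LF + 4) : ℕ)) := by
  have hL0 : (0 : ℝ) ≤ (LF : ℝ) := Nat.cast_nonneg _
  have h40 : (0 : ℝ) < 3 * (LF : ℝ) + 4 := by linarith
  have hcast : (6 : ℝ) * (2 ^ e * (3 * LF + 4) : ℕ) = 6 * (2 ^ e * (3 * (LF : ℝ) + 4)) := by
    push_cast
    rfl
  rw [hcast, one_div_pow]
  generalize 3 * (LF : ℝ) + 4 = t at hb2 h40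
  have hp : (0 : ℝ) < 2 ^ e := pow_pos (by norm_num) _
  have h5 : (2 : ℝ) ^ e * t ≤ 2 ^ e * 2 ^ (D + 36) := mul_le_mul_of_nonneg_left hb2 hp.le
  have h6 : (6 : ℝ) * (2 ^ e * t) ≤ 2 ^ (D + e + 39) := by
    rw [show D + e + 39 = e + (D + 36) + 3 by omega, pow_add, pow_add]
    have h8 : (0 : ℝ) < 2 ^ e * t := mul_pos hp h40
    generalize (2 : ℝ) ^ e * t = a at h5 h8 ⊢
    generalize (2 : ℝ) ^ e * 2 ^ (D + 36) = b at h5 ⊢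
    norm_num
    linarith
  exact one_div_le_one_div_of_le (mul_pos (by norm_num) (mul_pos hp h40)) h6

theorem alg (D LF a b e f : ℕ) (c x y z : ℝ) (hc0 : 0 ≤ c) (hc : c ≤ 2 ^ f)
    (hb : LF ≤ 2 ^ (D + 33)) (hx0 : 0 ≤ x) (hx : x ≤ z) (hy0 : 0 ≤ y)
    (hz : (2 : ℝ) ^ (D + 33 + f) * z ≤ (1 / 2) ^ (D + e + 40))
    (hy : (2 : ℝ) ^ (a + (D + 34) + b + f) * y ≤ (1 / 2) ^ (D + e + 40)) :
    (LF : ℝ) * c * x + 2 ^ a * ((LF + 1) * (2 ^ b * y * c)) ≤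
      1 / (6 * (2 ^ e * (3 * LF + 4) : ℕ)) := by
  have hbR : (LF : ℝ) ≤ 2 ^ (D + 33) := by exact_mod_cast hb
  have h1R : (1 : ℝ) ≤ 2 ^ (D + 33) := one_le_pow₀ (by norm_num)
  have hb1 : (LF : ℝ) + 1 ≤ 2 ^ (D + 34) := by
    rw [show D + 34 = (D + 33) + 1 by omega, pow_succ]
    linarith
  have hb2 : (3 * (LF : ℝ) + 4) ≤ 2 ^ (D + 36) := by
    rw [show D + 36 = (D + 33) + 3 by omega, pow_add]
    norm_num
    linarith
  have hT1 : (LF : ℝ) * c * x ≤ (1 / 2) ^ (D + e + 40) := by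
    calc (LF : ℝ) * c * x ≤ 2 ^ (D + 33) * 2 ^ f * z := by
          apply mul_le_mul _ hx hx0 (by positivity)
          exact mul_le_mul hbR hc hc0 (by positivity)
      _ = 2 ^ (D + 33 + f) * z := by rw [← pow_add]
      _ ≤ (1 / 2) ^ (D + e + 40) := hz
  have hT2 : (2 : ℝ) ^ a * ((LF + 1) * (2 ^ b * y * c)) ≤ (1 / 2) ^ (D + e + 40) := by
    calc (2 : ℝ) ^ a * ((LF + 1) * (2 ^ b * y * c))
        ≤ 2 ^ a * (2 ^ (D + 34) * (2 ^ b * y * 2 ^ f)) := by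
          apply mul_le_mul_of_nonneg_left _ (by positivity)
          apply mul_le_mul hb1 _ (by positivity) (by positivity)
          exact mul_le_mul_of_nonneg_left hc (by positivity)
      _ = 2 ^ (a + (D + 34) + b + f) * y := by
          rw [four_pow]
          ring
      _ ≤ (1 / 2) ^ (D + e + 40) := hy
  have hR : (1 / 2 : ℝ) ^ (D + e + 39) ≤ 1 / (6 * (2 ^ e * (3 * LF + 4) : ℕ)) :=
    rhs_le D LF e hb2
  have hsum : (1 / 2 : ℝ) ^ (D + e + 40) + (1 / 2) ^ (D + e + 40) = (1 / 2) ^ (D + e + 39) := by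
    rw [show D + e + 40 = (D + e + 39) + 1 by omega, pow_succ]
    ring
  linarith

theorem num2 (D : ℕ) (hD0 : 1 ≤ D) (hD : D ≤ 20851) :
    ∃ LF : ℕ, 2 * 64 + 10 ≤ LF ∧
    ((LF : ℝ) * (2 * (6 * ((2 * 139 * 2 ^ 150 : ℕ) + 1) + 2)) *
        (1 - 1 / 2 ^ D) ^ (LF / D - 2) +
      2 ^ (64 + 3) * ((LF + 1) * (2 ^ (2 * 64 + 8) * (1 / 2) ^ 100000 *
        (2 * (6 * ((2 * 139 * 2 ^ 150 : ℕ) + 1) + 2))))
      ≤ 1 / (6 * (2 ^ (64 + 2) * (3 * LF + 4) : ℕ))) := by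
  have hLF : ∀ m : ℕ, D * (m * 2 ^ D + 2) / D - 2 = m * 2 ^ D := by
    intro m
    rw [Nat.mul_div_cancel_left _ (by omega)]
    omega
  have hb : D * (2 ^ 17 * 2 ^ D + 2) ≤ 2 ^ (D + 33) := by
    have h1 : 1 ≤ 2 ^ D := Nat.one_le_two_pow
    calc D * (2 ^ 17 * 2 ^ D + 2) ≤ 2 ^ 15 * (2 ^ 18 * 2 ^ D) :=
          Nat.mul_le_mul (by omega) (by omega)
      _ = 2 ^ (D + 33) := by ring
  refine ⟨D * (2 ^ 17 * 2 ^ D + 2), ?_, ?_⟩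
  · have h1 : 1 ≤ 2 ^ D := Nat.one_le_two_pow
    have h2 : 1 * (2 ^ 17 * 1 + 2) ≤ D * (2 ^ 17 * 2 ^ D + 2) :=
      Nat.mul_le_mul hD0 (by omega)
    omega
  · have hk := key D (2 ^ 17) (D * (2 ^ 17 * 2 ^ D + 2) / D - 2) (hLF _).ge
    have hk0 : (0 : ℝ) ≤ (1 - 1 / 2 ^ D) ^ (D * (2 ^ 17 * 2 ^ D + 2) / D - 2) := by
      apply pow_nonneg
      rw [sub_nonneg, div_le_one (by positivity)]
      exact one_le_pow₀ (by norm_num)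
    have hc0 : (0 : ℝ) ≤ 2 * (6 * ((2 * 139 * 2 ^ 150 : ℕ) + 1) + 2) := by positivity
    have hz : (2 : ℝ) ^ (D + 33 + 164) * (1 / 2) ^ (2 ^ 17) ≤ (1 / 2) ^ (D + (64 + 2) + 40) :=
      two_half _ _ _ (by omega)
    have hy : (2 : ℝ) ^ ((64 + 3) + (D + 34) + (2 * 64 + 8) + 164) * (1 / 2) ^ 100000 ≤
        (1 / 2) ^ (D + (64 + 2) + 40) := two_half _ _ _ (by omega)
    exact alg D _ (64 + 3) (2 * 64 + 8) (64 + 2) 164 _ _ _ _ hc0 cst hb hk0 hk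
      (pow_nonneg (by norm_num) _) hz hy

theorem num1 (n : ℕ) (hn : 1024 * 2 ^ (136 + 4) ≤ n) :
    (24 : ℝ) * 2 ^ (2 * 150 + 2 * 136 + 4) * (136 + 3) * (1 - 1 / 2 ^ (136 + 4)) ^ n ≤ 1 := by
  have h1 := key (136 + 4) 1024 n hn
  have h2 : (0 : ℝ) < 2 ^ (2 * 150 + 2 * 136 + 4) := by positivity
  have h3 : (0 : ℝ) ≤ (1 - 1 / 2 ^ (136 + 4)) ^ n := by
    apply pow_nonneg
    rw [sub_nonneg, div_le_one (by positivity)]
    exact one_le_pow₀ (by norm_num)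
  calc (24 : ℝ) * 2 ^ (2 * 150 + 2 * 136 + 4) * (136 + 3) * (1 - 1 / 2 ^ (136 + 4)) ^ n
      ≤ (2 ^ 12 * 2 ^ (2 * 150 + 2 * 136 + 4)) * (1 / 2) ^ 1024 := by
        apply mul_le_mul _ h1 h3 (by positivity)
        generalize (2 : ℝ) ^ (2 * 150 + 2 * 136 + 4) = y at h2
        norm_num
        linarith
    _ = 2 ^ (12 + (2 * 150 + 2 * 136 + 4)) * (1 / 2) ^ 1024 := by rw [← pow_add]
    _ ≤ (1 / 2) ^ 0 := two_half _ _ _ (by norm_num)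
    _ = 1 := pow_zero _

theorem st_NUM : ST_NUM := by
  refine ⟨?_, ?_⟩
  · exact num1 (2 ^ 150) (by norm_num)
  · exact num2 (150 * 139 + 1) (by norm_num) (by norm_num)

end Pool.Agent.Helper62.TC8
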