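import Pool.Agent.Helper86.TC8.Stmts

set_option autoImplicit false

/-!
MP_e0a484_co, module ORI: orientation of a finite graph in which all vertices have degree two.
-/

namespace Pool.Agent.Helper62.TC8

open Pool.Agent.Helper86.TC8

open scoped Classical

section

variable {V : Type} (H : SimpleGraph V) (p q : V → V)

/-- the darts -/
abbrev D : Type := {d : V × V // H.Adj d.1 d.2}

/-- the neighbour of `y` other than `x` -/
noncomputable def oth (x y : V) : V := if x = p y then q y else p y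

variable (hpq : ∀ v, p v ≠ q v) (hN : ∀ v w, H.Adj v w ↔ w = p v ∨ w = q v)

include hpq hN in
theorem oth_spec {x y : V} (h : H.Adj x y) :
    oth p q x y ≠ x ∧ H.Adj y (oth p q x y) ∧ oth p q (oth p q x y) y = x := by
  have h1 := (hN y x).1 h.symm
  unfold oth
  by_cases hx : x = p y
  · rw [if_pos hx]
    refine ⟨?_, (hN y _).2 (Or.inr rfl), ?_⟩
    · rw [hx]
      exact (hpq y).symm
    · rw [if_neg (hpq y).symm, hx]
  · rw [if_neg hx]
    have h2 : x = q y := by
      rcases h1 with h1 | h1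
      · exact absurd h1 hx
      · exact h1
    refine ⟨?_, (hN y _).2 (Or.inl rfl), ?_⟩
    · exact fun h => hx h.symm
    · rw [if_pos rfl, h2]

/-- the permutation of the darts -/
noncomputable def sg : Equiv.Perm (D H) where
  toFun d := ⟨(d.1.2, oth p q d.1.1 d.1.2), (oth_spec H p q hpq hN d.2).2.1⟩
  invFun d := ⟨(oth p q d.1.2 d.1.1, d.1.1), (oth_spec H p q hpq hN d.2.symm).2.1.symm⟩
  left_inv := by
    rintro ⟨⟨x, y⟩, h⟩
    have := (oth_spec H p q hpq hN h).2.2
    simp only [Subtype.mk.injEq, Prod.mk.injEq, and_true]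
    exact this
  right_inv := by
    rintro ⟨⟨x, y⟩, h⟩
    have := (oth_spec H p q hpq hN h.symm).2.2
    simp only [Subtype.mk.injEq, Prod.mk.injEq, true_and]
    exact this

/-- the reversal -/
def rv : Equiv.Perm (D H) where
  toFun d := ⟨(d.1.2, d.1.1), d.2.symm⟩
  invFun d := ⟨(d.1.2, d.1.1), d.2.symm⟩
  left_inv _ := rfl
  right_inv _ := rfl

theorem semi : SemiconjBy (rv H) (sg H p q hpq hN) (sg H p q hpq hN)⁻¹ := by
  unfold SemiconjBy
  ext d
  · rfl
  · rfl

theorem rv_zpow (i : ℤ) (d : D H) :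
    rv H ((sg H p q hpq hN ^ i) d) = (sg H p q hpq hN ^ (-i)) (rv H d) := by
  have h := (semi H p q hpq hN).zpow_right i
  unfold SemiconjBy at h
  have h2 := congrArg (fun f : Equiv.Perm (D H) => f d) h
  simp only [Equiv.Perm.mul_apply] at h2
  rw [h2, inv_zpow, zpow_neg]

theorem not_same (d : D H) : ¬ (sg H p q hpq hN).SameCycle d (rv H d) := by
  rintro ⟨i, hi⟩
  rcases Int.even_or_odd' i with ⟨j, hj | hj⟩
  · have h1 := rv_zpow H p q hpq hN j d
    have h0 : (sg H p q hpq hN ^ (-j)) (rv H d) = (sg H p q hpq hN ^ j) d := by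
      rw [← hi, ← Equiv.Perm.mul_apply, ← zpow_add, show -j + i = j by omega]
    rw [h0] at h1
    have h2 : ((sg H p q hpq hN ^ j) d).1.2 = ((sg H p q hpq hN ^ j) d).1.1 := by
      have := congrArg (fun e : D H => e.1.1) h1
      exact this
    exact ((sg H p q hpq hN ^ j) d).2.ne h2.symm
  · have h1 := rv_zpow H p q hpq hN j d
    have h0 : (sg H p q hpq hN ^ (-j)) (rv H d) =
        sg H p q hpq hN ((sg H p q hpq hN ^ j) d) := by
      rw [← hi, ← Equiv.Perm.mul_apply, ← zpow_add, show -j + i = 1 + j by omega, zpow_add,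
        Equiv.Perm.mul_apply, zpow_one]
    rw [h0] at h1
    have h2 : ((sg H p q hpq hN ^ j) d).1.1 =
        oth p q ((sg H p q hpq hN ^ j) d).1.1 ((sg H p q hpq hN ^ j) d).1.2 := by
      have := congrArg (fun e : D H => e.1.2) h1
      exact this
    exact (oth_spec H p q hpq hN ((sg H p q hpq hN ^ j) d).2).1 h2.symm

end

theorem st_ORI : ST_ORI := by
  intro V _ H hR
  have h1 : ∀ v, ∃ a b : V, a ≠ b ∧ ∀ w, H.Adj v w ↔ w = a ∨ w = b := by
    intro v
    obtain ⟨a, b, hab, hs⟩ := Set.ncard_eq_two.1 (hR v)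
    refine ⟨a, b, hab, fun w => ?_⟩
    rw [← SimpleGraph.mem_neighborSet, hs]
    simp
  choose p q hpq hN using h1
  have hN' : ∀ v w, H.Adj v w ↔ w = p v ∨ w = q v := hN
  set σ := sg H p q hpq hN' with hσ
  obtain ⟨f, hf⟩ := exists_injective_nat (Quotient (Equiv.Perm.SameCycle.setoid σ))
  let c : D H → ℕ := fun d => f (Quotient.mk _ d)
  have hc : ∀ d e : D H, c d = c e ↔ σ.SameCycle d e := by
    intro d e
    constructor
    · intro h
      exact Quotient.exact (hf h)
    · intro h
      exact congrArg f (Quotient.sound h)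
  have hcr : ∀ d, c d ≠ c (rv H d) := by
    intro d h
    exact not_same H p q hpq hN' d ((hc _ _).1 h)
  have hcs : ∀ d, c (σ d) = c d := by
    intro d
    rw [hc]
    exact ⟨-1, by simp⟩
  have hcrs : ∀ d, c (rv H (σ d)) = c (rv H d) := by
    intro d
    rw [hc]
    refine ⟨1, ?_⟩
    have := rv_zpow H p q hpq hN' 1 d
    rw [zpow_one] at this
    rw [hσ, this, ← Equiv.Perm.mul_apply, ← zpow_add]
    simp
  let S : D H → Prop := fun d => c d < c (rv H d)
  have hrr : ∀ d : D H, rv H (rv H d) = d := fun _ => rfl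
  have hS1 : ∀ d, S (rv H d) ↔ ¬ S d := by
    intro d
    have := hcr d
    change c (rv H d) < c (rv H (rv H d)) ↔ ¬ c d < c (rv H d)
    rw [hrr]
    omega
  have hS2 : ∀ d, S (σ d) ↔ S d := by
    intro d
    change c (σ d) < c (rv H (σ d)) ↔ c d < c (rv H d)
    rw [hcs, hcrs]
  let T : V → V → Prop := fun x y => ∃ h : H.Adj x y, S ⟨(x, y), h⟩
  have hT1 : ∀ x y, H.Adj x y → (T y x ↔ ¬ T x y) := by
    intro x y h
    have := hS1 ⟨(x, y), h⟩
    constructor
    · rintro ⟨h', hs⟩ ⟨_, hs'⟩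
      exact (this.1 hs) hs'
    · intro hn
      refine ⟨h.symm, this.2 fun hs => hn ⟨h, hs⟩⟩
  have hT2 : ∀ x, T x (q x) ↔ ¬ T x (p x) := by
    intro x
    have hp : H.Adj (p x) x := ((hN' x _).2 (Or.inl rfl)).symm
    have hq : H.Adj x (q x) := (hN' x _).2 (Or.inr rfl)
    have h3 := hS2 ⟨(p x, x), hp⟩
    have h4 : σ ⟨(p x, x), hp⟩ = ⟨(x, q x), hq⟩ := by
      apply Subtype.ext
      change (x, oth p q (p x) x) = (x, q x)
      unfold oth
      rw [if_pos rfl]
    rw [h4] at h3
    rw [← hT1 x (p x) hp.symm]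
    constructor
    · rintro ⟨_, hs⟩
      exact ⟨hp, h3.1 hs⟩
    · rintro ⟨_, hs⟩
      exact ⟨hq, h3.2 hs⟩
  let fw : V → V := fun x => if T x (p x) then p x else q x
  let bw : V → V := fun x => if T x (p x) then q x else p x
  have hfw : ∀ x, T x (fw x) := by
    intro x
    change T x (if T x (p x) then p x else q x)
    split_ifs with h
    · exact h
    · exact (hT2 x).2 h
  have hbw : ∀ x, H.Adj x (bw x) ∧ ¬ T x (bw x) := by
    intro x
    change H.Adj x (if T x (p x) then q x else p x) ∧ ¬ T x (if T x (p x) then q x else p x)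
    split_ifs with h
    · exact ⟨(hN' x _).2 (Or.inr rfl), fun h' => (hT2 x).1 h' h⟩
    · exact ⟨(hN' x _).2 (Or.inl rfl), h⟩
  have hne : ∀ x, fw x ≠ bw x := by
    intro x h
    exact (hbw x).2 (h ▸ hfw x)
  have hadj : ∀ x y, H.Adj x y ↔ y = fw x ∨ y = bw x := by
    intro x y
    rw [hN']
    change (y = p x ∨ y = q x) ↔ (y = if T x (p x) then p x else q x) ∨
      (y = if T x (p x) then q x else p x)
    split_ifs
    · rfl
    · exact or_comm
  refine ⟨fw, bw, ?_, ?_, hadj, hne⟩
  · intro x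
    have h2 : T (bw x) x := (hT1 x (bw x) (hbw x).1).2 (hbw x).2
    have h3 : H.Adj (bw x) x := (hbw x).1.symm
    rcases (hadj _ _).1 h3 with h4 | h4
    · exact h4.symm
    · exfalso
      have := (hbw (bw x)).2
      rw [← h4] at this
      exact this h2
  · intro x
    obtain ⟨h, _⟩ := hfw x
    have h2 : ¬ T (fw x) x := fun h' => (hT1 x (fw x) h).1 h' (hfw x)
    rcases (hadj _ _).1 h.symm with h4 | h4
    · exfalso
      have := hfw (fw x)
      rw [← h4] at this
      exact h2 this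
    · exact h4.symm

end Pool.Agent.Helper62.TC8
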